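import Pool.Agent.W_MP_1d7e2f_al.N

set_option autoImplicit false

/-!
The bi-ordered soluble group `G` with periodic abelianization.
-/

namespace Pool.Agent.W_MP_1d7e2f_al

/-- the group `G` -/
@[ext] structure G where
  /-- coordinates -/
  w : ℕ →₀ N

namespace G

/-- the projection to `H` as a map -/
noncomputable def proj (a : G) : H := ⟨Finsupp.mapRange N.sigma (map_zero _) a.w⟩

@[simp] lemma proj_v (a : G) (i : ℕ) : (proj a).v i = N.sigma (a.w i) := rfl

noncomputable instance : One G := ⟨⟨0⟩⟩

noncomputable instance : Mul G := ⟨fun a b =>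
  ⟨Finsupp.onFinset (a.w.support ∪ b.w.support)
    (fun i => N.act (H.shift (i+1) (proj b)) (a.w i) + b.w i) (by
    intro i hi
    by_contra hc
    simp only [Finset.mem_union, Finsupp.mem_support_iff, not_or, not_not] at hc
    apply hi
    rw [hc.1, hc.2]; simp)⟩⟩

noncomputable instance : Inv G := ⟨fun a =>
  ⟨Finsupp.onFinset (a.w.support)
    (fun i => - (N.act (H.shift (i+1) (proj a)⁻¹) (a.w i))) (by
    intro i hi
    by_contra hc
    simp only [Finsupp.mem_support_iff, not_not] at hc
    apply hi
    rw [hc]; simp)⟩⟩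

@[simp] lemma one_w (i : ℕ) : (1 : G).w i = 0 := rfl
lemma mul_w (a b : G) (i : ℕ) :
    (a * b).w i = N.act (H.shift (i+1) (proj b)) (a.w i) + b.w i := rfl
lemma inv_w (a : G) (i : ℕ) :
    (a⁻¹).w i = - (N.act (H.shift (i+1) (proj a)⁻¹) (a.w i)) := rfl

lemma ext' {a b : G} (h : ∀ i, a.w i = b.w i) : a = b := G.ext (Finsupp.ext h)

lemma proj_one : proj 1 = 1 := by
  apply H.ext'
  intro i
  simp

lemma proj_mul (a b : G) : proj (a * b) = proj a * proj b := by
  apply H.ext'
  intro i
  rw [proj_v, mul_w, map_add, N.sigma_act]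
  simp

lemma proj_inv (a : G) : proj a⁻¹ = (proj a)⁻¹ := by
  apply H.ext'
  intro i
  rw [proj_v, inv_w, map_neg, N.sigma_act]
  simp [sg_neg, sg_sg_mul]

noncomputable instance : Group G := Group.ofLeftAxioms
  (by
    intro a b c
    apply ext'
    intro i
    rw [mul_w, mul_w, mul_w, mul_w, N.act_add, proj_mul, map_mul, N.act_mul, add_assoc])
  (by
    intro a
    apply ext'
    intro i
    rw [mul_w]
    simp)
  (by
    intro a
    apply ext'
    intro i
    rw [mul_w, inv_w, one_w]
    have h : ∀ (h : H) (n : N), N.act h (-n) = - N.act h n := by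
      intro h n
      have := N.act_add h n (-n)
      rw [add_neg_cancel, N.act_zero] at this
      exact (neg_eq_of_add_eq_zero_right this.symm).symm
    rw [h, ← N.act_mul, ← map_mul, inv_mul_cancel, map_one, N.act_one, neg_add_cancel])

/-- the projection to `H` -/
noncomputable def projHom : G →* H where
  toFun := proj
  map_one' := proj_one
  map_mul' := proj_mul

lemma toColex_injective : Function.Injective (fun a : G => toColex a.w) := by
  intro a b h
  exact G.ext h

noncomputable instance : LinearOrder G :=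
  LinearOrder.lift' (fun a : G => toColex a.w) toColex_injective

lemma lt_iff (a b : G) : a < b ↔ ∃ i, (∀ j, i < j → a.w j = b.w j) ∧ a.w i < b.w i := Iff.rfl

lemma mul_lt_left {a b : G} (c : G) (h : a < b) : c * a < c * b := by
  rw [lt_iff] at h ⊢
  obtain ⟨i, h1, h2⟩ := h
  have h3 : ∀ j, i ≤ j → H.shift (j+1) (proj a) = H.shift (j+1) (proj b) := by
    intro j hj
    apply H.ext'
    intro k
    rw [H.shift_v, H.shift_v, proj_v, proj_v, h1 _ (by omega)]
  refine ⟨i, ?_, ?_⟩
  · intro j hj
    rw [mul_w, mul_w, h1 j hj, h3 j hj.le]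
  · rw [mul_w, mul_w, h3 i le_rfl]
    exact N.add_lt _ h2

lemma mul_lt_right {a b : G} (c : G) (h : a < b) : a * c < b * c := by
  rw [lt_iff] at h ⊢
  obtain ⟨i, h1, h2⟩ := h
  refine ⟨i, ?_, ?_⟩
  · intro j hj
    rw [mul_w, mul_w, h1 j hj]
  · rw [mul_w, mul_w, add_comm _ (c.w i), add_comm _ (c.w i)]
    exact N.add_lt _ (N.act_lt _ h2)

instance : MulLeftMono G := ⟨by
  intro c a b h
  rcases eq_or_lt_of_le h with h | h
  · subst h; exact le_rfl
  · exact (mul_lt_left c h).le⟩

instance : MulRightMono G := ⟨by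
  intro c a b h
  rcases eq_or_lt_of_le h with h | h
  · subst h; exact le_rfl
  · exact (mul_lt_right c h).le⟩

/-- the embedding of `N` in degree `j` -/
noncomputable def iota (j : ℕ) (n : N) : G := ⟨Finsupp.single j n⟩

lemma iota_w_self (j : ℕ) (n : N) : (iota j n).w j = n := by simp [iota]

lemma iota_w_ne {j i : ℕ} (h : i ≠ j) (n : N) : (iota j n).w i = 0 := by
  simp only [iota]
  exact Finsupp.single_eq_of_ne h

lemma iota_mul_of_lt (j : ℕ) (n : N) (f : G) (hf : ∀ i, j < i → f.w i = 0) (i : ℕ) :
    (iota j n * f).w i = (iota j n).w i + f.w i := by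
  rw [mul_w]
  by_cases hij : i = j
  · subst hij
    have : H.shift (i+1) (proj f) = 1 := by
      apply H.ext'
      intro k
      rw [H.shift_v, proj_v, hf _ (by omega)]
      simp
    rw [this, N.act_one]
  · rw [iota_w_ne hij, N.act_zero]

lemma iota_add (j : ℕ) (n m : N) : iota j (n + m) = iota j n * iota j m := by
  apply ext'
  intro i
  rw [iota_mul_of_lt]
  · by_cases hij : i = j
    · subst hij; simp only [iota_w_self]
    · simp only [iota_w_ne hij, add_zero]
  · intro i hi
    exact iota_w_ne (by omega) _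

lemma iota_succ_mul (j : ℕ) (n m : N) (i : ℕ) :
    (iota (j+1) m * iota j n).w i = (iota (j+1) m).w i + (iota j n).w i := by
  apply iota_mul_of_lt
  intro i hi
  exact iota_w_ne (by omega) _

lemma iota_comm (j : ℕ) (n : N) :
    iota j n * iota (j+1) N.n1 = iota (j+1) N.n1 * iota j (N.act N.x0 n) := by
  apply ext'
  intro i
  rw [iota_succ_mul, mul_w]
  by_cases hij : i = j
  · subst hij
    have : H.shift (i+1) (proj (iota (i+1) N.n1)) = N.x0 := by
      apply H.ext'
      intro k
      rw [H.shift_v, proj_v]
      by_cases hk : k = 0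
      · subst hk
        rw [show 0 + (i + 1) = i + 1 by ring, iota_w_self, N.sigma_n1]
        simp [N.x0]
      · rw [iota_w_ne (by omega)]
        simp [N.x0, Finsupp.single_eq_of_ne hk]
    rw [this, iota_w_self, iota_w_self, iota_w_ne (by omega), add_zero, zero_add]
  · rw [iota_w_ne hij, iota_w_ne hij, N.act_zero, zero_add, add_zero]

/-- in the abelianization, `iota j n` has order dividing two -/
lemma of_iota (j : ℕ) (n : N) :
    Abelianization.of (iota j n) * Abelianization.of (iota j n) = 1 := by
  obtain ⟨m, hm⟩ := N.exists_two n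
  have h1 : Abelianization.of (iota j (n + n + m)) = Abelianization.of (iota j (N.act N.x0 m)) := by
    rw [hm]
  rw [iota_add, iota_add, map_mul, map_mul] at h1
  have h2 := congrArg Abelianization.of (iota_comm j m)
  rw [map_mul, map_mul, mul_comm] at h2
  have h3 := mul_left_cancel h2
  rw [← h3] at h1
  exact mul_eq_right.mp h1

lemma of_sq (g : G) : Abelianization.of g * Abelianization.of g = 1 := by
  obtain ⟨f⟩ := g
  induction f using Finsupp.induction_on_max with
  | zero =>
    have : (⟨0⟩ : G) = 1 := rfl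
    rw [this]; simp
  | single_add j n f hf _ ih =>
    have h : (⟨Finsupp.single j n + f⟩ : G) = iota j n * ⟨f⟩ := by
      apply ext'
      intro i
      rw [iota_mul_of_lt]
      · rfl
      · intro i hi
        show f i = 0
        by_contra hc
        have := hf i (Finsupp.mem_support_iff.mpr hc)
        omega
    rw [h, map_mul, mul_mul_mul_comm, of_iota, ih, mul_one]

lemma isOfFinOrder (x : Abelianization G) : IsOfFinOrder x := by
  obtain ⟨g, rfl⟩ : ∃ g, Abelianization.of g = x := QuotientGroup.mk_surjective x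
  rw [isOfFinOrder_iff_pow_eq_one]
  exact ⟨2, by norm_num, by rw [pow_two]; exact of_sq g⟩

instance : Nontrivial G := by
  refine ⟨⟨iota 0 N.n1, 1, ?_⟩⟩
  intro h
  have h2 : N.sigma ((iota 0 N.n1).w 0) = N.sigma ((1 : G).w 0) := by rw [h]
  rw [iota_w_self, N.sigma_n1, one_w, map_zero] at h2
  exact one_ne_zero h2

lemma H_solvable : Group.IsSolvable H := by
  have : Group.IsSolvable H.par.ker := by
    apply Group.isSolvable_of_comm
    rintro ⟨a, ha⟩ ⟨b, hb⟩
    apply Subtype.ext
    show a * b = b * a
    apply H.ext'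
    intro i
    have h1 : ∀ i, sg (a.v i) = 1 := by
      intro i
      have : H.par a i = 1 := by rw [MonoidHom.mem_ker.mp ha]; rfl
      have h2 : (a.v i).negOnePow = 1 := this
      unfold sg
      rw [h2]; rfl
    have h1' : ∀ i, sg (b.v i) = 1 := by
      intro i
      have : H.par b i = 1 := by rw [MonoidHom.mem_ker.mp hb]; rfl
      have h2 : (b.v i).negOnePow = 1 := this
      unfold sg
      rw [h2]; rfl
    rw [H.mul_v, H.mul_v, h1, h1']
    ring
  exact Group.isSolvable_of_ker_le_range (H.par.ker.subtype) H.par (by simp)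

lemma G_solvable : Group.IsSolvable G := by
  have : Group.IsSolvable projHom.ker := by
    apply Group.isSolvable_of_comm
    rintro ⟨a, ha⟩ ⟨b, hb⟩
    apply Subtype.ext
    show a * b = b * a
    apply ext'
    intro i
    have h1 : proj a = 1 := ha
    have h2 : proj b = 1 := hb
    rw [mul_w, mul_w, h1, h2, map_one, N.act_one, N.act_one, add_comm]
  have := H_solvable
  exact Group.isSolvable_of_ker_le_range (projHom.ker.subtype) projHom (by simp)

end G

end Pool.Agent.W_MP_1d7e2f_al
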