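import Mathlib

set_option autoImplicit false

/-!
The ordered abelian group `A = {f ∈ ℚ(X) : f regular at -1, f(-1) ∈ ℤ}`, realised as the set of
pairs `(f(τ), f(-1))` with `τ > 0` transcendental.
-/

namespace Pool.Agent.W_MP_1d7e2f_al

open Polynomial

lemma exists_tau : ∃ τ : ℝ, 0 < τ ∧ Transcendental ℤ τ := by
  have h := transcendental_liouvilleNumber (m := 2) le_rfl
  rcases lt_trichotomy (liouvilleNumber (2:ℕ)) 0 with h1 | h1 | h1
  · refine ⟨- liouvilleNumber (2:ℕ), by linarith, ?_⟩
    intro h2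
    apply h
    have := h2.neg
    simpa using this
  · exfalso
    apply h
    rw [h1]
    exact isAlgebraic_zero
  · exact ⟨_, h1, h⟩

/-- a positive transcendental real -/
noncomputable def tau : ℝ := exists_tau.choose

lemma tau_pos : 0 < tau := exists_tau.choose_spec.1

lemma tau_trans : Transcendental ℤ tau := exists_tau.choose_spec.2

lemma aeval_tau_eq_zero {p : ℤ[X]} (h : aeval tau p = 0) : p = 0 := by
  have := tau_trans
  rw [transcendental_iff] at this
  exact this p h

lemma tau_ne_one : tau - 1 ≠ 0 := by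
  intro h
  have : aeval tau (X - 1 : ℤ[X]) = 0 := by simpa using h
  have h2 := aeval_tau_eq_zero this
  have : (X - 1 : ℤ[X]).eval 0 = 0 := by rw [h2]; simp
  simp at this

/-- the underlying additive subgroup -/
noncomputable def Asub : AddSubgroup (ℝ × ℤ) where
  carrier := {z | ∃ p q : ℤ[X], q.eval (-1) ≠ 0 ∧ z.1 * aeval tau q = aeval tau p ∧
    z.2 * q.eval (-1) = p.eval (-1)}
  zero_mem' := ⟨0, 1, by simp⟩
  add_mem' := by
    rintro a b ⟨p, q, h1, h2, h3⟩ ⟨p', q', h1', h2', h3'⟩
    refine ⟨p * q' + p' * q, q * q', ?_, ?_, ?_⟩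
    · simp only [eval_mul]; exact mul_ne_zero h1 h1'
    · simp only [Prod.fst_add, map_mul, map_add]
      rw [← h2, ← h2']; ring
    · simp only [Prod.snd_add, eval_mul, eval_add]
      rw [← h3, ← h3']; ring
  neg_mem' := by
    rintro a ⟨p, q, h1, h2, h3⟩
    refine ⟨-p, q, h1, ?_, ?_⟩
    · simp only [Prod.fst_neg, map_neg]
      rw [← h2]; ring
    · simp only [Prod.snd_neg, eval_neg]
      rw [← h3]; ring

lemma Asub_inj (z : Asub) (h : z.1.1 = 0) : z = 0 := by
  obtain ⟨⟨x, n⟩, p, q, h1, h2, h3⟩ := z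
  simp only at h h2 h3
  subst h
  rw [zero_mul] at h2
  have := aeval_tau_eq_zero h2.symm
  subst this
  simp only [eval_zero] at h3
  have hn : n = 0 := by
    rcases mul_eq_zero.mp h3 with h | h
    · exact h
    · exact absurd h h1
  subst hn
  rfl

/-- the ordered group `A` -/
def A : Type := Asub

noncomputable instance : AddCommGroup A := inferInstanceAs (AddCommGroup Asub)

namespace A

/-- value at `τ` -/
def fst (z : A) : ℝ := z.1.1

/-- value at `-1` -/
def sgm : A →+ ℤ where
  toFun z := z.1.2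
  map_zero' := rfl
  map_add' _ _ := rfl

lemma fst_add (a b : A) : (a + b).fst = a.fst + b.fst := rfl
lemma fst_sub (a b : A) : (a - b).fst = a.fst - b.fst := rfl
lemma fst_zero : (0 : A).fst = 0 := rfl

lemma fst_injective : Function.Injective fst := by
  intro a b h
  have h1 : (a - b).fst = 0 := by rw [fst_sub, h, sub_self]
  exact sub_eq_zero.mp (Asub_inj (a - b) h1)

noncomputable instance : LinearOrder A := LinearOrder.lift' fst fst_injective

lemma lt_iff (a b : A) : a < b ↔ a.fst < b.fst := Iff.rfl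
lemma le_iff (a b : A) : a ≤ b ↔ a.fst ≤ b.fst := Iff.rfl

instance : IsOrderedAddMonoid A where
  add_le_add_left a b h c := by
    rw [le_iff] at h ⊢
    rw [fst_add, fst_add]
    linarith

/-- constructor -/
def mk (x : ℝ) (n : ℤ) (h : (x, n) ∈ Asub) : A := ⟨(x, n), h⟩

lemma fst_mk (x : ℝ) (n : ℤ) (h : (x, n) ∈ Asub) : (mk x n h).fst = x := rfl
lemma sgm_mk (x : ℝ) (n : ℤ) (h : (x, n) ∈ Asub) : sgm (mk x n h) = n := rfl

lemma prop (z : A) : ∃ p q : ℤ[X], q.eval (-1) ≠ 0 ∧ z.fst * aeval tau q = aeval tau p ∧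
    sgm z * q.eval (-1) = p.eval (-1) := z.2

/-- multiplication by `X` -/
noncomputable def tFun (z : A) : A := mk (tau * z.fst) (- sgm z) (by
    obtain ⟨p, q, h1, h2, h3⟩ := z.prop
    refine ⟨X * p, q, h1, ?_, ?_⟩
    · simp only [map_mul, aeval_X]
      rw [← h2]; ring
    · simp only [eval_mul, eval_X]
      rw [← h3]; ring)

/-- multiplication by `X⁻¹` -/
noncomputable def tInv (z : A) : A := mk (tau⁻¹ * z.fst) (- sgm z) (by
    obtain ⟨p, q, h1, h2, h3⟩ := z.prop
    have := tau_pos.ne'
    refine ⟨p, X * q, ?_, ?_, ?_⟩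
    · simp only [eval_mul, eval_X]
      simpa using h1
    · simp only [map_mul, aeval_X]
      rw [← h2]; field_simp
    · simp only [eval_mul, eval_X]
      rw [← h3]; ring)

/-- multiplication by `X` as an automorphism -/
noncomputable def t : AddAut A where
  toFun := tFun
  invFun := tInv
  left_inv z := by
    apply fst_injective
    have := tau_pos.ne'
    rw [tInv, tFun, fst_mk, fst_mk]
    field_simp
  right_inv z := by
    apply fst_injective
    have := tau_pos.ne'
    rw [tInv, tFun, fst_mk, fst_mk]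
    field_simp
  map_add' a b := by
    apply fst_injective
    rw [fst_add]
    simp only [tFun, fst_mk, fst_add]
    ring

lemma fst_t (z : A) : (t z).fst = tau * z.fst := rfl
lemma sgm_t (z : A) : sgm (t z) = - sgm z := rfl

lemma t_lt (z w : A) (h : z < w) : t z < t w := by
  rw [lt_iff] at h ⊢
  rw [fst_t, fst_t]
  exact mul_lt_mul_of_pos_left h tau_pos

lemma exists_two (z : A) : ∃ w : A, t w - w = z + z := by
  refine ⟨mk (2 * z.fst / (tau - 1)) (- sgm z) ?_, ?_⟩
  · obtain ⟨p, q, h1, h2, h3⟩ := z.prop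
    refine ⟨2 * p, q * (X - 1), ?_, ?_, ?_⟩
    · simp only [eval_mul, eval_X, eval_sub, eval_one]
      simpa using h1
    · simp only [map_mul, aeval_X, map_sub, map_one, map_ofNat]
      rw [← h2]
      have := tau_ne_one
      field_simp
    · simp only [eval_mul, eval_X, eval_sub, eval_one, eval_ofNat]
      rw [← h3]; ring
  · apply fst_injective
    rw [fst_sub, fst_t, fst_add, fst_mk]
    have := tau_ne_one
    field_simp
    ring

/-- the unit element -/
noncomputable def e : A := mk 1 1 ⟨1, 1, by simp⟩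

lemma sgm_e : sgm e = 1 := rfl

lemma e_ne : e ≠ 0 := by
  intro h
  have : sgm e = 0 := by rw [h]; simp
  rw [sgm_e] at this
  exact one_ne_zero this

end A

end Pool.Agent.W_MP_1d7e2f_al
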