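import Mathlib

set_option autoImplicit false

/-!
The group `H = < x_0, x_1, ... | x_{i+1} x_i x_{i+1}^{-1} = x_i^{-1}, [x_i, x_j] = 1 (|i-j|>1) >`
in normal form coordinates, with its left-invariant order.
-/

namespace Pool.Agent.W_MP_1d7e2f_al

/-- the sign `(-1)^n` -/
def sg (n : ℤ) : ℤ := ((n.negOnePow : ℤˣ) : ℤ)

lemma sg_zero : sg 0 = 1 := by simp [sg]

lemma sg_one : sg 1 = -1 := by simp [sg]

lemma sg_add (a b : ℤ) : sg (a + b) = sg a * sg b := by
  simp [sg, Int.negOnePow_add]

lemma sg_neg (a : ℤ) : sg (-a) = sg a := by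
  simp [sg, Int.negOnePow_neg]

lemma sg_cases (a : ℤ) : sg a = 1 ∨ sg a = -1 := by
  unfold sg
  rcases Int.units_eq_one_or a.negOnePow with h | h <;> simp [h]

lemma sg_mul_self (a : ℤ) : sg a * sg a = 1 := by
  rcases sg_cases a with h | h <;> simp [h]

lemma sg_sg_mul (a b : ℤ) : sg (sg a * b) = sg b := by
  rcases sg_cases a with h | h <;> simp [h, sg_neg]

/-- the group `H` -/
@[ext] structure H where
  /-- coordinates -/
  v : ℕ →₀ ℤ

namespace H

instance : Zero H := ⟨⟨0⟩⟩
instance : One H := ⟨⟨0⟩⟩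

noncomputable instance : Mul H := ⟨fun a b =>
  ⟨Finsupp.onFinset (a.v.support ∪ b.v.support) (fun i => sg (b.v (i+1)) * a.v i + b.v i) (by
    intro i hi
    by_contra hc
    simp only [Finset.mem_union, Finsupp.mem_support_iff, not_or, not_not] at hc
    apply hi
    rw [hc.1, hc.2]; simp)⟩⟩

noncomputable instance : Inv H := ⟨fun a =>
  ⟨Finsupp.onFinset (a.v.support) (fun i => - (sg (a.v (i+1)) * a.v i)) (by
    intro i hi
    by_contra hc
    simp only [Finsupp.mem_support_iff, not_not] at hc
    apply hi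
    rw [hc]; simp)⟩⟩

@[simp] lemma one_v (i : ℕ) : (1 : H).v i = 0 := rfl
@[simp] lemma mul_v (a b : H) (i : ℕ) : (a * b).v i = sg (b.v (i+1)) * a.v i + b.v i := rfl
@[simp] lemma inv_v (a : H) (i : ℕ) : (a⁻¹).v i = - (sg (a.v (i+1)) * a.v i) := rfl

lemma ext' {a b : H} (h : ∀ i, a.v i = b.v i) : a = b := by
  apply H.ext
  exact Finsupp.ext h

noncomputable instance : Group H := Group.ofLeftAxioms
  (by
    intro a b c
    apply ext'
    intro i
    simp only [mul_v, sg_add, sg_sg_mul]
    ring)
  (by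
    intro a
    apply ext'
    intro i
    simp)
  (by
    intro a
    apply ext'
    intro i
    simp only [mul_v, inv_v, one_v]
    have := sg_mul_self (a.v (i+1))
    linear_combination (- a.v i) * this)

lemma v_injective : Function.Injective (fun a : H => toColex a.v) := by
  intro a b h
  apply H.ext
  exact h

noncomputable instance : LinearOrder H := LinearOrder.lift' (fun a : H => toColex a.v) v_injective

lemma lt_iff (a b : H) : a < b ↔ ∃ i, (∀ j, i < j → a.v j = b.v j) ∧ a.v i < b.v i := Iff.rfl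

lemma mul_lt_mul_left'' {a b : H} (c : H) (h : a < b) : c * a < c * b := by
  rw [lt_iff] at h ⊢
  obtain ⟨i, h1, h2⟩ := h
  refine ⟨i, ?_, ?_⟩
  · intro j hj
    simp only [mul_v]
    rw [h1 j hj, h1 (j+1) (by omega)]
  · simp only [mul_v]
    rw [h1 (i+1) (by omega)]
    linarith

/-- the shift as a map -/
noncomputable def shiftFun (k : ℕ) (a : H) : H :=
  ⟨Finsupp.comapDomain (fun i => i + k) a.v ((add_left_injective k).injOn)⟩

lemma shiftFun_v (k : ℕ) (a : H) (i : ℕ) : (shiftFun k a).v i = a.v (i + k) := rfl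

/-- the shift -/
noncomputable def shift (k : ℕ) : H →* H where
  toFun := shiftFun k
  map_one' := by
    apply ext'
    intro i
    simp [shiftFun_v]
  map_mul' a b := by
    apply ext'
    intro i
    simp only [mul_v, shiftFun_v]
    rw [show i + 1 + k = i + k + 1 by ring]

@[simp] lemma shift_v (k : ℕ) (a : H) (i : ℕ) : (shift k a).v i = a.v (i + k) := rfl

/-- parity homomorphism -/
noncomputable def par : H →* (ℕ → ℤˣ) where
  toFun a := fun i => (a.v i).negOnePow
  map_one' := by
    funext i
    simp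
  map_mul' a b := by
    funext i
    simp only [mul_v, Pi.mul_apply, Int.negOnePow_add]
    congr 1
    rcases sg_cases (b.v (i+1)) with h | h <;> simp [h, Int.negOnePow_neg]

end H

end Pool.Agent.W_MP_1d7e2f_al
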