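import Pool.Agent.W_MP_1d7e2f_al.H
import Pool.Agent.W_MP_1d7e2f_al.A

set_option autoImplicit false

/-!
The ordered `H`-module `N = H →₀ A`.
-/

namespace Pool.Agent.W_MP_1d7e2f_al

namespace A

lemma fst_zpow (n : ℤ) (z : A) : ((n • t : AddAut A) z).fst = tau ^ n * z.fst := by
  have h0 := tau_pos.ne'
  induction n using Int.induction_on generalizing z with
  | zero => simp
  | succ n ih =>
    rw [add_zsmul, one_zsmul, AddAut.add_apply, ih, fst_t, zpow_add_one₀ h0]
    ring
  | pred n ih =>
    rw [sub_zsmul, one_zsmul, AddAut.add_apply, ih,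
      zpow_sub_one₀ h0]
    have : ((-t : AddAut A) z).fst = tau⁻¹ * z.fst := rfl
    rw [this]
    ring

lemma sgm_zpow (n : ℤ) (z : A) : sgm ((n • t : AddAut A) z) = sg n * sgm z := by
  induction n using Int.induction_on generalizing z with
  | zero => simp [sg_zero]
  | succ n ih =>
    rw [add_zsmul, one_zsmul, AddAut.add_apply, ih, sgm_t, sg_add, sg_one]
    ring
  | pred n ih =>
    rw [sub_zsmul, one_zsmul, AddAut.add_apply, ih]
    have : sgm ((-t : AddAut A) z) = - sgm z := rfl
    rw [this, sub_eq_add_neg, sg_add, sg_neg, sg_neg, sg_one]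
    ring

lemma zpow_lt (n : ℤ) (z w : A) (h : z < w) : (n • t : AddAut A) z < (n • t : AddAut A) w := by
  rw [lt_iff] at h ⊢
  rw [fst_zpow, fst_zpow]
  exact mul_lt_mul_of_pos_left h (zpow_pos tau_pos n)

end A

/-- the ordered `H`-module `N` -/
@[ext] structure N where
  /-- underlying function -/
  f : H →₀ A

namespace N

lemma f_injective : Function.Injective N.f := fun _ _ h => N.ext h

noncomputable instance : Zero N := ⟨⟨0⟩⟩
noncomputable instance : Add N := ⟨fun a b => ⟨a.f + b.f⟩⟩
noncomputable instance : Neg N := ⟨fun a => ⟨- a.f⟩⟩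
noncomputable instance : Sub N := ⟨fun a b => ⟨a.f - b.f⟩⟩
noncomputable instance : SMul ℕ N := ⟨fun n a => ⟨n • a.f⟩⟩
noncomputable instance : SMul ℤ N := ⟨fun n a => ⟨n • a.f⟩⟩

noncomputable instance : AddCommGroup N :=
  f_injective.addCommGroup N.f rfl (fun _ _ => rfl) (fun _ => rfl) (fun _ _ => rfl)
    (fun _ _ => rfl) (fun _ _ => rfl)

@[simp] lemma zero_f (k : H) : (0 : N).f k = 0 := rfl
@[simp] lemma zero_f' : (0 : N).f = 0 := rfl
@[simp] lemma add_f (a b : N) (k : H) : (a + b).f k = a.f k + b.f k := rfl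
lemma add_f' (a b : N) : (a + b).f = a.f + b.f := rfl

lemma ext' {a b : N} (h : ∀ k, a.f k = b.f k) : a = b := N.ext (Finsupp.ext h)

lemma toColex_injective : Function.Injective (fun a : N => toColex a.f) := by
  intro a b h
  exact N.ext h

noncomputable instance : LinearOrder N :=
  LinearOrder.lift' (fun a : N => toColex a.f) toColex_injective

lemma lt_iff (a b : N) : a < b ↔ ∃ k, (∀ j, k < j → a.f j = b.f j) ∧ a.f k < b.f k := Iff.rfl

lemma add_lt {a b : N} (c : N) (h : a < b) : c + a < c + b := by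
  rw [lt_iff] at h ⊢
  obtain ⟨k, h1, h2⟩ := h
  refine ⟨k, ?_, ?_⟩
  · intro j hj
    rw [add_f, add_f, h1 j hj]
  · rw [add_f, add_f]
    exact add_lt_add_right h2 _

/-- induction principle -/
lemma induction {P : N → Prop} (a : N) (h0 : P 0) (hadd : ∀ a b, P a → P b → P (a + b))
    (hs : ∀ k z, P ⟨Finsupp.single k z⟩) : P a := by
  obtain ⟨f⟩ := a
  induction f using Finsupp.induction_linear with
  | zero => exact h0
  | add f g hf hg => exact hadd _ _ hf hg
  | single k z => exact hs k z

/-- the sum of the `sgm`'s -/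
noncomputable def sigma : N →+ ℤ where
  toFun a := Finsupp.liftAddHom (fun _ => A.sgm) a.f
  map_zero' := by simp
  map_add' a b := by rw [add_f', map_add]

lemma sigma_single (k : H) (z : A) : sigma ⟨Finsupp.single k z⟩ = A.sgm z := by
  simp [sigma]

/-- the right action of `H` -/
noncomputable def act (h : H) (a : N) : N :=
  ⟨Finsupp.onFinset (a.f.support.image (fun k => (H.shift 1 h)⁻¹ * k))
    (fun k => ((sg (k.v 0) * h.v 0) • A.t : AddAut A) (a.f (H.shift 1 h * k))) (by
      intro k hk
      rw [Finset.mem_image]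
      refine ⟨H.shift 1 h * k, ?_, by group⟩
      rw [Finsupp.mem_support_iff]
      intro hc
      apply hk
      rw [hc, map_zero])⟩

lemma act_f (h : H) (a : N) (k : H) :
    (act h a).f k = ((sg (k.v 0) * h.v 0) • A.t : AddAut A) (a.f (H.shift 1 h * k)) := rfl

@[simp] lemma act_zero (h : H) : act h 0 = 0 := by
  apply ext'
  intro k
  rw [act_f]
  simp

lemma act_add (h : H) (a b : N) : act h (a + b) = act h a + act h b := by
  apply ext'
  intro k
  rw [add_f, act_f, act_f, act_f, add_f, map_add]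

@[simp] lemma act_one (a : N) : act 1 a = a := by
  apply ext'
  intro k
  rw [act_f]
  simp

lemma act_mul (h g : H) (a : N) : act (h * g) a = act g (act h a) := by
  apply ext'
  intro k
  rw [act_f, act_f, act_f]
  rw [← AddAut.add_apply, ← add_zsmul, map_mul (H.shift 1) h g, mul_assoc (H.shift 1 h)]
  congr 2
  simp only [H.mul_v, H.shift_v, sg_add, sg_sg_mul]
  ring_nf

lemma act_lt (h : H) {a b : N} (hab : a < b) : act h a < act h b := by
  rw [lt_iff] at hab ⊢
  obtain ⟨k, h1, h2⟩ := hab
  refine ⟨(H.shift 1 h)⁻¹ * k, ?_, ?_⟩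
  · intro j hj
    rw [act_f, act_f, h1]
    have := H.mul_lt_mul_left'' (H.shift 1 h) hj
    rwa [mul_inv_cancel_left] at this
  · rw [act_f, act_f, mul_inv_cancel_left]
    exact A.zpow_lt _ _ _ h2

lemma act_single (h k : H) (z : A) : act h ⟨Finsupp.single k z⟩ =
    ⟨Finsupp.single ((H.shift 1 h)⁻¹ * k)
      (((sg (((H.shift 1 h)⁻¹ * k).v 0) * h.v 0) • A.t : AddAut A) z)⟩ := by
  apply ext'
  intro j
  rw [act_f]
  by_cases hj : j = (H.shift 1 h)⁻¹ * k
  · subst hj
    simp only [mul_inv_cancel_left, Finsupp.single_eq_same]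
  · have h2 : H.shift 1 h * j ≠ k := by
      intro hc
      apply hj
      rw [← hc]; group
    simp only
    rw [Finsupp.single_eq_of_ne h2, Finsupp.single_eq_of_ne hj, map_zero]

lemma sigma_act (h : H) (a : N) : sigma (act h a) = sg (h.v 0) * sigma a := by
  induction a using N.induction with
  | h0 => simp
  | hadd a b ha hb => rw [act_add, map_add, map_add, ha, hb]; ring
  | hs k z =>
    rw [act_single, sigma_single, sigma_single, A.sgm_zpow, sg_sg_mul]

/-- the generator `x_0` -/
noncomputable def x0 : H := ⟨Finsupp.single 0 1⟩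

lemma shift_x0 : H.shift 1 x0 = 1 := by
  apply H.ext'
  intro i
  simp [x0]

lemma exists_two (a : N) : ∃ b : N, a + a + b = act x0 b := by
  induction a using N.induction with
  | h0 => exact ⟨0, by simp⟩
  | hadd a b ha hb =>
    obtain ⟨a', ha'⟩ := ha
    obtain ⟨b', hb'⟩ := hb
    refine ⟨a' + b', ?_⟩
    rw [act_add, ← ha', ← hb']
    abel
  | hs k z =>
    obtain ⟨w, hw⟩ := A.exists_two z
    rcases sg_cases (k.v 0) with h | h
    · refine ⟨⟨Finsupp.single k w⟩, ?_⟩
      rw [act_single, shift_x0]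
      apply N.ext
      simp only [inv_one, one_mul, h, add_f']
      rw [← Finsupp.single_add, ← Finsupp.single_add]
      congr 1
      have : x0.v 0 = 1 := by simp [x0]
      rw [this, one_zsmul, ← hw]
      abel
    · refine ⟨⟨Finsupp.single k (- A.t w)⟩, ?_⟩
      rw [act_single, shift_x0]
      apply N.ext
      simp only [inv_one, one_mul, h, add_f']
      rw [← Finsupp.single_add, ← Finsupp.single_add]
      congr 1
      have : x0.v 0 = 1 := by simp [x0]
      rw [this, mul_one, neg_zsmul, one_zsmul, map_neg, ← hw]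
      have h3 : (-A.t : AddAut A) (A.t w) = w := AddAut.neg_apply_self _ _ _
      rw [h3]
      abel

/-- an element with `sigma = 1` -/
noncomputable def n1 : N := ⟨Finsupp.single 1 A.e⟩

lemma sigma_n1 : sigma n1 = 1 := by
  rw [n1, sigma_single, A.sgm_e]

end N

end Pool.Agent.W_MP_1d7e2f_al
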